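import Mathlib

namespace Pool.Agent.Results.MP_5ec752_co.Counter

/-- Type A regular sequences: the summed block is adjacent to the new entry. -/
inductive RegA : List ℕ → Prop
  | base : RegA [1, 1]
  | left (d c : List ℕ) : RegA d → c ≠ [] → c <+: d → RegA (c.sum :: d)
  | right (d c : List ℕ) : RegA d → c ≠ [] → c <:+ d → RegA (d ++ [c.sum])

/-- Type B regular sequences: the summed block is any block of consecutive entries. -/
inductive RegB : List ℕ → Prop
  | base : RegB [1, 1]
  | left (d c : List ℕ) : RegB d → c ≠ [] → c <:+: d → RegB (c.sum :: d)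
  | right (d c : List ℕ) : RegB d → c ≠ [] → c <:+: d → RegB (d ++ [c.sum])

/-- Lengths of sequences satisfying `R` with a permutation of `(k, l)` as a subsequence. -/
def lens (R : List ℕ → Prop) (k l : ℕ) : Set ℕ :=
  {n | ∃ d, R d ∧ d.length = n ∧ ([k, l].Sublist d ∨ [l, k].Sublist d)}

noncomputable def a (k l : ℕ) : ℕ := sInf (lens RegA k l)

noncomputable def b (k l : ℕ) : ℕ := sInf (lens RegB k l)

def chk : ℕ → List ℕ → Bool
  | 0, d => !(d.contains 9 && d.contains 24)
  | n + 1, d => !(d.contains 9 && d.contains 24) &&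
      (d.inits.all fun c => chk n (c.sum :: d)) && d.tails.all fun c => chk n (d ++ [c.sum])

lemma chk_of {d : List ℕ} (h : RegA d) : d.length ≤ 7 → chk (7 - d.length) d = true := by
  induction h with
  | base => exact fun _ => by decide +kernel
  | left d c _ _ hc ih =>
    intro h
    rw [List.length_cons] at h ⊢
    have := ih (by omega)
    rw [show 7 - d.length = 7 - (d.length + 1) + 1 by omega, chk] at this
    simp only [Bool.and_eq_true, List.all_eq_true] at this
    exact this.1.2 c ((List.mem_inits _ _).2 hc)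
  | right d c _ _ hc ih =>
    intro h
    rw [List.length_append, List.length_singleton] at h ⊢
    have := ih (by omega)
    rw [show 7 - d.length = 7 - (d.length + 1) + 1 by omega, chk] at this
    simp only [Bool.and_eq_true, List.all_eq_true] at this
    exact this.2 c ((List.mem_tails _ _).2 hc)

theorem result : a 9 24 = 8 ∧ 7 ∈ lens RegB 9 24 ∧
    ∃ k l, 0 < k ∧ 0 < l ∧ (lens RegA k l).Nonempty ∧ (lens RegB k l).Nonempty ∧ b k l < a k l := by
  have hB : 7 ∈ lens RegB 9 24 := ⟨[24, 9, 4, 2, 1, 1, 7],
    .left _ [9, 4, 2, 1, 1, 7] (.left _ [1, 1, 7] (.right [4, 2, 1, 1] [4, 2, 1] (.left _ [2, 1, 1]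
      (.left _ [1, 1] .base (by decide) (by decide)) (by decide) (by decide)) (by decide)
      (by decide)) (by decide) (by decide)) (by decide) (by decide), rfl, by decide⟩
  have hA : 8 ∈ lens RegA 9 24 := ⟨[24, 6, 4, 2, 1, 1, 1, 9],
    .left _ [6, 4, 2, 1, 1, 1, 9] (.right [6, 4, 2, 1, 1, 1] [4, 2, 1, 1, 1] (.left _ [4, 2]
      (.left _ [2, 1, 1] (.left _ [1, 1] (.left _ [1] .base (by decide) (by decide)) (by decide)
      (by decide)) (by decide) (by decide)) (by decide) (by decide)) (by decide) (by decide))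
      (by decide) (by decide), rfl, by decide⟩
  have e : a 9 24 = 8 := IsLeast.csInf_eq ⟨hA, fun n ⟨d, h, hn, hs⟩ => by
    by_contra c
    have := chk_of h (by omega)
    have m : 9 ∈ d ∧ 24 ∈ d := by
      rcases hs with s | s <;> exact ⟨s.subset (by simp), s.subset (by simp)⟩
    cases hk : 7 - d.length <;> simp [hk, chk, m.1, m.2] at this⟩
  exact ⟨e, hB, 9, 24, by norm_num, by norm_num, ⟨_, hA⟩, ⟨_, hB⟩,
    (Nat.sInf_le hB).trans_lt (by omega)⟩

end Pool.Agent.Results.MP_5ec752_co.Counter
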